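import Pool.Agent.Q203.An
import Pool.Agent.Helper90.CB.NonBorel

set_option autoImplicit false

open Set MeasureTheory

namespace Pool.Agent.Results.MP_930073_lc.NotPreserved

/-- Analytic subsets of a standard Borel space: projections of Borel subsets of `α × ℕ^ℕ`. -/
def Analytic {α : Type} [MeasurableSpace α] (s : Set α) : Prop :=
  ∃ B : Set (α × (ℕ → ℕ)), MeasurableSet B ∧ s = Prod.fst '' B

/-- Analytic quasi-orders. -/
def AnalyticQuasiOrder {X : Type} [MeasurableSpace X] (S : X → X → Prop) : Prop :=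
  (∀ x, S x x) ∧ (∀ x y z, S x y → S y z → S x z) ∧ Analytic {p : X × X | S p.1 p.2}

/-- Analytic equivalence relations. -/
def AnalyticEquivalence {X : Type} [MeasurableSpace X] (E : X → X → Prop) : Prop :=
  Equivalence E ∧ Analytic {p : X × X | E p.1 p.2}

/-- Borel reducibility `R ≤_B R'`. -/
def BorelRed {X Y : Type} [MeasurableSpace X] [MeasurableSpace Y] (R : X → X → Prop)
    (R' : Y → Y → Prop) : Prop :=
  ∃ f : X → Y, Measurable f ∧ ∀ x y, R x y ↔ R' (f x) (f y)

/-- Restriction of a relation to a subset. -/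
def Restr {X : Type} (S : X → X → Prop) (B : Set X) : B → B → Prop := fun x y => S x.1 y.1

/-- The pair `(S, E)` is invariantly universal: for every analytic quasi-order `R` on a standard
Borel space there is a Borel `E`-invariant set `B` with `S ↾ B ∼_B R`. -/
def InvariantlyUniversal {X : Type} [MeasurableSpace X] (S E : X → X → Prop) : Prop :=
  ∀ (Y : Type) [MeasurableSpace Y] [StandardBorelSpace Y] (R : Y → Y → Prop),
    AnalyticQuasiOrder R → ∃ B : Set X, MeasurableSet B ∧ (∀ x y, E x y → x ∈ B → y ∈ B) ∧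
      BorelRed (Restr S B) R ∧ BorelRed R (Restr S B)

open Pool.Agent.Q203 in
/-- a complete analytic quasi-order all of whose slices are invariant -/
theorem exists_base : ∃ S0 : ((ℕ → Bool) × (ℕ → Bool)) → ((ℕ → Bool) × (ℕ → Bool)) → Prop,
    AnalyticQuasiOrder S0 ∧ (∀ p q, S0 p q → p.1 = q.1) ∧
    ∀ R : (ℕ → Bool) → (ℕ → Bool) → Prop, AnalyticQuasiOrder R →
      ∃ z, ∀ x y, R x y ↔ S0 (z, x) (z, y) := by
  obtain ⟨W, hW, hWu⟩ := An.exists_universal ((ℕ → Bool) × (ℕ → Bool))
  let S0 : ((ℕ → Bool) × (ℕ → Bool)) → ((ℕ → Bool) × (ℕ → Bool)) → Prop := fun p q =>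
    p.1 = q.1 ∧ ∃ (n : ℕ) (w : ℕ → (ℕ → Bool)), w 0 = p.2 ∧ w n = q.2 ∧
      ∀ i < n, (p.1, (w i, w (i + 1))) ∈ W
  refine ⟨S0, ⟨?_, ?_, ?_⟩, fun p q h => h.1, ?_⟩
  · intro x
    exact ⟨rfl, 0, fun _ => x.2, rfl, rfl, fun i hi => absurd hi (Nat.not_lt_zero i)⟩
  · rintro x y z ⟨hxy, n, w, hw0, hwn, hw⟩ ⟨hyz, m, v, hv0, hvm, hv⟩
    refine ⟨hxy.trans hyz, n + m, fun i => if i ≤ n then w i else v (i - n), ?_, ?_, ?_⟩
    · simp [hw0]
    · by_cases hm : m = 0
      · subst hm
        simp only [add_zero, le_refl, if_true]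
        rw [hwn, ← hv0, hvm]
      · have : ¬ (n + m ≤ n) := by omega
        simp only [this, if_false, Nat.add_sub_cancel_left]
        exact hvm
    · intro i hi
      by_cases h1 : i + 1 ≤ n
      · have h2 : i ≤ n := by omega
        simp only [h1, h2, if_true]
        exact hw i (by omega)
      · by_cases h2 : i ≤ n
        · have h3 : i = n := by omega
          subst h3
          simp only [le_refl, if_true, h1, if_false]
          have h4 := hv 0 (by omega)
          rw [hv0, ← hwn, zero_add, ← hxy] at h4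
          have h5 : i + 1 - i = 1 := by omega
          rw [h5]
          exact h4
        · simp only [h1, h2, if_false]
          have h3 := hv (i - n) (by omega)
          rw [← hxy] at h3
          have h4 : i + 1 - n = i - n + 1 := by omega
          rw [h4]
          exact h3
  · -- analyticity
    have hset : {p : ((ℕ → Bool) × (ℕ → Bool)) × ((ℕ → Bool) × (ℕ → Bool)) | S0 p.1 p.2} =
        {p | p.1.1 = p.2.1} ∩ ⋃ n : ℕ, {p | ∃ w : ℕ → (ℕ → Bool), (p, w) ∈
          {q : (((ℕ → Bool) × (ℕ → Bool)) × ((ℕ → Bool) × (ℕ → Bool))) × (ℕ → (ℕ → Bool)) |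
            q.2 0 = q.1.1.2 ∧ q.2 n = q.1.2.2} ∩ {q | ∀ i < n, q ∈
              {q : (((ℕ → Bool) × (ℕ → Bool)) × ((ℕ → Bool) × (ℕ → Bool))) × (ℕ → (ℕ → Bool)) |
              (q.1.1.1, (q.2 i, q.2 (i + 1))) ∈ W}}} := by
      ext p
      simp only [S0, mem_ofPred_eq, mem_inter_iff, mem_iUnion, and_assoc]
    rw [hset]
    refine An.Analytic.inter (An.Analytic.of_measurableSet ?_) (An.Analytic.iUnion fun n => ?_)
    · exact measurableSet_eq_fun (measurable_fst.comp measurable_fst)
        (measurable_fst.comp measurable_snd)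
    · refine An.Analytic.proj_of_surj (An.Analytic.inter (An.Analytic.of_measurableSet ?_)
        (An.Analytic.biInter_lt (fun i => ?_) n))
        (fun c i j => decide (c (Nat.pair i j) = 0)) ?_ ?_
      · refine MeasurableSet.inter ?_ ?_
        · exact measurableSet_eq_fun ((measurable_pi_apply 0).comp measurable_snd)
            (measurable_snd.comp (measurable_fst.comp measurable_fst))
        · exact measurableSet_eq_fun ((measurable_pi_apply n).comp measurable_snd)
            (measurable_snd.comp (measurable_snd.comp measurable_fst))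
      · refine hW.preimage (f := fun q : (((ℕ → Bool) × (ℕ → Bool)) ×
          ((ℕ → Bool) × (ℕ → Bool))) × (ℕ → (ℕ → Bool)) => (q.1.1.1, (q.2 i, q.2 (i + 1)))) ?_
        exact (measurable_fst.comp (measurable_fst.comp measurable_fst)).prodMk
          (((measurable_pi_apply i).comp measurable_snd).prodMk
            ((measurable_pi_apply (i + 1)).comp measurable_snd))
      · refine measurable_pi_lambda _ fun i => measurable_pi_lambda _ fun j => ?_
        exact (measurable_of_countable fun m : ℕ => decide (m = 0)).comp (measurable_pi_apply _)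
      · intro w
        refine ⟨fun k => if w k.unpair.1 k.unpair.2 = true then 0 else 1, ?_⟩
        funext i j
        by_cases h : w i j = true
        · simp [h]
        · simp [h]
  · intro R hR
    obtain ⟨z, hz⟩ := hWu {p | R p.1 p.2} hR.2.2 ⟨(fun _ => false, fun _ => false), hR.1 _⟩
    have hz' : ∀ x y, R x y ↔ (z, (x, y)) ∈ W := fun x y => hz (x, y)
    refine ⟨z, fun x y => ?_⟩
    constructor
    · intro hxy
      refine ⟨rfl, 1, fun i => if i = 0 then x else y, by simp, by simp, fun i hi => ?_⟩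
      have hi0 : i = 0 := by omega
      subst hi0
      simp only [if_true, zero_add, one_ne_zero, if_false]
      exact (hz' x y).1 hxy
    · rintro ⟨-, n, w, hw0, hwn, hw⟩
      have key : ∀ i ≤ n, R x (w i) := by
        intro i
        induction i with
        | zero => intro _; rw [hw0]; exact hR.1 x
        | succ i ih =>
          intro hi
          exact hR.2.1 _ _ _ (ih (by omega)) ((hz' _ _).2 (hw i (by omega)))
      have := key n le_rfl
      rwa [hwn] at this

/-- every nonempty standard Borel space is a Borel retract of the Cantor space -/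
theorem exists_retract (Y : Type) [MeasurableSpace Y] [StandardBorelSpace Y] [Nonempty Y] :
    ∃ (π : (ℕ → Bool) → Y) (ι : Y → (ℕ → Bool)), Measurable π ∧ Measurable ι ∧
      ∀ y, π (ι y) = y := by
  obtain ⟨ι, hι, hinj⟩ := MeasurableSpace.measurable_injection_nat_bool_of_countablySeparated Y
  have hemb : MeasurableEmbedding ι := hι.measurableEmbedding hinj
  exact ⟨hemb.invFun, ι, hemb.measurable_invFun, hι, hemb.leftInverse_invFun⟩

open Pool.Agent.Q203 in
/-- **Invariant universality does not pass to Borel reducible equivalence subrelations.**  There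
are an analytic quasi-order `S` and analytic equivalence relations `E, F ⊆ E_S` on a standard Borel
space such that `(S, F)` is invariantly universal and `E ≤_B F`, but `(S, E)` is not invariantly
universal. -/
theorem result : ∃ (X : Type) (_ : MeasurableSpace X) (_ : StandardBorelSpace X)
    (S E F : X → X → Prop), AnalyticQuasiOrder S ∧ AnalyticEquivalence E ∧ AnalyticEquivalence F ∧
      (∀ x y, E x y → S x y ∧ S y x) ∧ (∀ x y, F x y → S x y ∧ S y x) ∧
      InvariantlyUniversal S F ∧ BorelRed E F ∧ ¬ InvariantlyUniversal S E := by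
  obtain ⟨S0, hS0, hslice, huniv⟩ := exists_base
  obtain ⟨Z, _, _, π, hπ, hπr⟩ := Pool.Agent.Helper90.CB.exists_range_not_measurable
  let A : Set (ℕ → Bool) := Set.range π
  have hA : An.Analytic A := An.Analytic.range hπ
  have hAne : A.Nonempty := by
    by_contra h
    rw [Set.not_nonempty_iff_eq_empty] at h
    exact hπr (by change MeasurableSet A; rw [h]; exact MeasurableSet.empty)
  obtain ⟨a0, ha0⟩ := hAne
  let P := (ℕ → Bool) × (ℕ → Bool)
  let X := (ℕ → Bool) × P
  let S : X → X → Prop := fun x y => x = y ∨ (x.1 ∈ A ∧ y.1 ∈ A ∧ S0 x.2 y.2)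
  let E : X → X → Prop := fun x y => S x y ∧ S y x
  let F : X → X → Prop := fun x y => x = y ∨ ((x.1 = a0 ∧ y.1 = a0) ∧ S0 x.2 y.2 ∧ S0 y.2 x.2)
  have hAfst : An.Analytic {p : X × X | p.1.1 ∈ A} :=
    hA.preimage (measurable_fst.comp measurable_fst)
  have hAsnd : An.Analytic {p : X × X | p.2.1 ∈ A} :=
    hA.preimage (measurable_fst.comp measurable_snd)
  have hS0a : An.Analytic {p : X × X | S0 p.1.2 p.2.2} :=
    An.Analytic.preimage (β := P × P) hS0.2.2 (f := fun p : X × X => (p.1.2, p.2.2))
      ((measurable_snd.comp measurable_fst).prodMk (measurable_snd.comp measurable_snd))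
  have hS0a' : An.Analytic {p : X × X | S0 p.2.2 p.1.2} :=
    An.Analytic.preimage (β := P × P) hS0.2.2 (f := fun p : X × X => (p.2.2, p.1.2))
      ((measurable_snd.comp measurable_snd).prodMk (measurable_snd.comp measurable_fst))
  have heq : An.Analytic {p : X × X | p.1 = p.2} :=
    An.Analytic.of_measurableSet (measurableSet_eq_fun measurable_fst measurable_snd)
  have hSan : An.Analytic {p : X × X | S p.1 p.2} := by
    have : {p : X × X | S p.1 p.2} = {p : X × X | p.1 = p.2} ∪
        ({p : X × X | p.1.1 ∈ A} ∩ ({p : X × X | p.2.1 ∈ A} ∩ {p : X × X | S0 p.1.2 p.2.2})) := rfl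
    rw [this]
    exact heq.union (hAfst.inter (hAsnd.inter hS0a))
  have hSQ : AnalyticQuasiOrder S := by
    refine ⟨fun x => Or.inl rfl, ?_, hSan⟩
    rintro x y z (rfl | ⟨h1, h2, h3⟩) (rfl | ⟨h4, h5, h6⟩)
    · exact Or.inl rfl
    · exact Or.inr ⟨h4, h5, h6⟩
    · exact Or.inr ⟨h1, h2, h3⟩
    · exact Or.inr ⟨h1, h5, hS0.2.1 _ _ _ h3 h6⟩
  have hEan : An.Analytic {p : X × X | E p.1 p.2} := by
    have : {p : X × X | E p.1 p.2} = {p : X × X | S p.1 p.2} ∩
        (fun p : X × X => (p.2, p.1)) ⁻¹' {p : X × X | S p.1 p.2} := rfl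
    rw [this]
    exact hSan.inter (hSan.preimage (measurable_snd.prodMk measurable_fst))
  have hEeq : Equivalence E :=
    ⟨fun x => ⟨hSQ.1 x, hSQ.1 x⟩, fun h => ⟨h.2, h.1⟩,
      fun h h' => ⟨hSQ.2.1 _ _ _ h.1 h'.1, hSQ.2.1 _ _ _ h'.2 h.2⟩⟩
  have hFan : An.Analytic {p : X × X | F p.1 p.2} := by
    have : {p : X × X | F p.1 p.2} = {p : X × X | p.1 = p.2} ∪
        ({p : X × X | p.1.1 = a0 ∧ p.2.1 = a0} ∩
          ({p : X × X | S0 p.1.2 p.2.2} ∩ {p : X × X | S0 p.2.2 p.1.2})) := rfl
    rw [this]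
    refine heq.union ((An.Analytic.of_measurableSet ?_).inter (hS0a.inter hS0a'))
    exact ((measurable_fst.comp measurable_fst) (measurableSet_singleton a0)).inter
      ((measurable_fst.comp measurable_snd) (measurableSet_singleton a0))
  have hFeq : Equivalence F := by
    refine ⟨fun x => Or.inl rfl, ?_, ?_⟩
    · rintro x y (rfl | ⟨⟨h1, h2⟩, h3, h4⟩)
      · exact Or.inl rfl
      · exact Or.inr ⟨⟨h2, h1⟩, h4, h3⟩
    · rintro x y z (rfl | ⟨⟨h1, h2⟩, h3, h4⟩) (rfl | ⟨⟨h5, h6⟩, h7, h8⟩)
      · exact Or.inl rfl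
      · exact Or.inr ⟨⟨h5, h6⟩, h7, h8⟩
      · exact Or.inr ⟨⟨h1, h2⟩, h3, h4⟩
      · exact Or.inr ⟨⟨h1, h6⟩, hS0.2.1 _ _ _ h3 h7, hS0.2.1 _ _ _ h8 h4⟩
  -- every analytic quasi-order is bireducible with a slice
  have hslices : ∀ (Y : Type) [MeasurableSpace Y] [StandardBorelSpace Y] [Nonempty Y]
      (R : Y → Y → Prop), AnalyticQuasiOrder R → ∃ (z : ℕ → Bool) (π : (ℕ → Bool) → Y)
        (ι : Y → (ℕ → Bool)), Measurable π ∧ Measurable ι ∧ (∀ y, π (ι y) = y) ∧
        ∀ x y, R (π x) (π y) ↔ S0 (z, x) (z, y) := by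
    intro Y _ _ _ R hR
    obtain ⟨ρ, ι, hρ, hι, hρι⟩ := exists_retract Y
    obtain ⟨z, hz⟩ := huniv (fun x y => R (ρ x) (ρ y)) ⟨fun x => hR.1 _,
      fun x y w h h' => hR.2.1 _ _ _ h h',
      An.Analytic.preimage (β := Y × Y) hR.2.2 (f := fun p : (ℕ → Bool) × (ℕ → Bool) =>
        (ρ p.1, ρ p.2)) ((hρ.comp measurable_fst).prodMk (hρ.comp measurable_snd))⟩
    exact ⟨z, ρ, ι, hρ, hι, hρι, hz⟩
  refine ⟨X, inferInstance, inferInstance, S, E, F, hSQ, ⟨hEeq, hEan⟩, ⟨hFeq, hFan⟩,
    fun x y h => h, ?_, ?_, ?_, ?_⟩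
  · rintro x y (rfl | ⟨⟨h1, h2⟩, h3, h4⟩)
    · exact ⟨Or.inl rfl, Or.inl rfl⟩
    · exact ⟨Or.inr ⟨by rw [h1]; exact ha0, by rw [h2]; exact ha0, h3⟩,
        Or.inr ⟨by rw [h2]; exact ha0, by rw [h1]; exact ha0, h4⟩⟩
  · -- invariant universality of `(S, F)`
    intro Y _ _ R hR
    rcases isEmpty_or_nonempty Y with hY | hY
    · refine ⟨∅, MeasurableSet.empty, fun x y _ h => absurd h (notMem_empty x), ?_, ?_⟩
      · exact ⟨fun x => absurd x.2 (notMem_empty _), fun s _ => by
          convert MeasurableSet.empty using 1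
          ext x
          exact absurd x.2 (notMem_empty _), fun x => absurd x.2 (notMem_empty _)⟩
      · exact ⟨fun y => hY.elim y, fun s _ => by
          convert MeasurableSet.empty using 1
          ext y
          exact hY.elim y, fun y => hY.elim y⟩
    · obtain ⟨z, ρ, ι, hρ, hι, hρι, hz⟩ := hslices Y R hR
      let B : Set X := {x | x.1 = a0 ∧ x.2.1 = z}
      have hB : MeasurableSet B :=
        (measurable_fst (measurableSet_singleton a0)).inter
          ((measurable_fst.comp measurable_snd) (measurableSet_singleton z))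
      have hSB : ∀ x y : ℕ → Bool, S (a0, (z, x)) (a0, (z, y)) ↔ S0 (z, x) (z, y) := by
        intro x y
        constructor
        · rintro (h | h)
          · have : x = y := congrArg (fun w : X => w.2.2) h
            rw [this]
            exact hS0.1 _
          · exact h.2.2
        · intro h
          exact Or.inr ⟨ha0, ha0, h⟩
      refine ⟨B, hB, ?_, ?_, ?_⟩
      · rintro x y (rfl | ⟨⟨h1, h2⟩, h3, h4⟩) hx
        · exact hx
        · exact ⟨h2, (hslice _ _ h4).trans hx.2⟩
      · refine ⟨fun x => ρ x.1.2.2, hρ.comp (measurable_snd.comp (measurable_snd.comp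
          measurable_subtype_coe)), ?_⟩
        rintro ⟨⟨a, z', x⟩, ha, hz'⟩ ⟨⟨b, z'', y⟩, hb, hz''⟩
        have ha' : a = a0 := ha
        have hb' : b = a0 := hb
        have hz1 : z' = z := hz'
        have hz2 : z'' = z := hz''
        subst ha' hb' hz1 hz2
        change S _ _ ↔ R (ρ x) (ρ y)
        rw [hz, hSB]
      · refine ⟨fun y => ⟨(a0, (z, ι y)), rfl, rfl⟩, ?_, ?_⟩
        · exact Measurable.subtype_mk (measurable_const.prodMk (measurable_const.prodMk hι))
        · intro x y
          change R x y ↔ S _ _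
          rw [hSB, ← hz, hρι, hρι]
  · -- `E ≤_B F`
    obtain ⟨z, ρ, ι, hρ, hι, hρι, hz⟩ := hslices X E ⟨hEeq.refl, fun x y w h h' =>
      hEeq.trans h h', hEan⟩
    refine ⟨fun x => (a0, (z, ι x)), measurable_const.prodMk (measurable_const.prodMk hι), ?_⟩
    intro x y
    have h1 : ∀ x y, E x y ↔ S0 (z, ι x) (z, ι y) := by
      intro x y
      rw [← hz, hρι, hρι]
    constructor
    · intro h
      exact Or.inr ⟨⟨rfl, rfl⟩, (h1 x y).1 h, (h1 y x).1 (hEeq.symm h)⟩
    · rintro (h | ⟨-, h2, -⟩)
      · have h3 : ι x = ι y := congrArg (fun w : X => w.2.2) h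
        have h4 : x = y := by rw [← hρι x, h3, hρι]
        rw [h4]
        exact hEeq.refl _
      · exact (h1 x y).2 h2
  · -- failure for `(S, E)`
    intro hU
    obtain ⟨B, hB, hBinv, ⟨f, hf, hfred⟩, ⟨g, hg, hgred⟩⟩ := hU Bool (fun a b => a ≤ b)
      ⟨fun x => le_refl x, fun x y z h h' => le_trans h h',
        An.Analytic.of_measurableSet (Set.to_countable _).measurableSet⟩
    -- two comparable inequivalent points
    have h1 : S (g false).1 (g true).1 := (hgred false true).1 (by decide)
    have h2 : ¬ S (g true).1 (g false).1 := fun h => absurd ((hgred true false).2 h) (by decide)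
    have h3 : (g false).1.1 ∈ A ∧ (g true).1.1 ∈ A ∧ S0 (g false).1.2 (g true).1.2 := by
      rcases h1 with h | h
      · exact absurd (Or.inl h.symm) h2
      · exact h
    -- all points of `B` lie over `A`
    have hBA : ∀ x ∈ B, x.1 ∈ A := by
      intro x hx
      have htot : ∀ x y : B, S x.1 y.1 ∨ S y.1 x.1 := by
        intro x y
        rcases le_total (f x) (f y) with h | h
        · exact Or.inl ((hfred x y).2 h)
        · exact Or.inr ((hfred y x).2 h)
      rcases htot ⟨x, hx⟩ (g false) with (h | h) | (h | h)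
      · have h' : x = (g false).1 := h
        rw [h']; exact h3.1
      · exact h.1
      · have h' : (g false).1 = x := h
        rw [← h']; exact h3.1
      · exact h.2.1
    -- the section
    apply hπr
    have hsec : Set.range π = {a | ((a, (g false).1.2) : X) ∈ B} := by
      ext a
      constructor
      · intro ha
        refine hBinv (g false).1 (a, (g false).1.2) ?_ (g false).2
        exact ⟨Or.inr ⟨h3.1, ha, hS0.1 _⟩, Or.inr ⟨ha, h3.1, hS0.1 _⟩⟩
      · intro ha
        exact hBA _ ha
    rw [hsec]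
    exact (measurable_id.prodMk measurable_const) hB

end Pool.Agent.Results.MP_930073_lc.NotPreserved
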